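import Pool.Agent.W2helper8.AF.Stm

/-!
# Project AF (MP_a320f3_co), piece COMB: the induction
-/

set_option autoImplicit false

namespace Pool.Agent.W4helper65.AF

open Finset Pool.Agent.W2helper8.AF
open scoped Classical

universe u

theorem comb_aux (h1 : RStepStm.{u}) (h2 : E2Stm.{u}) (h3 : EStepStm.{u}) {V : Type u}
    (G : SimpleGraph V) (n : ℕ) (hn : 1 ≤ n) (m : ℕ) :
    (∀ m' ≤ m, R G n m') ∧ ∀ q, 2 ≤ q → n * q + 1 ≤ m → E G n q := by
  induction m with
  | zero =>
    refine ⟨fun m' hm' W _ _ q j _ h => ?_, fun q _ h => ?_⟩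
    · omega
    · omega
  | succ m ih =>
    have hR : R G n (m + 1) :=
      h1 G n m hn (ih.1 m le_rfl) (fun q hq hm => ih.2 q hq hm.ge)
    have hRall : ∀ m' ≤ m + 1, R G n m' := by
      intro m' hm'
      rcases Nat.lt_or_ge m' (m + 1) with h | h
      · exact ih.1 m' (by omega)
      · have : m' = m + 1 := by omega
        rw [this]
        exact hR
    refine ⟨hRall, fun q hq hqm => ?_⟩
    rcases Nat.lt_or_ge (n * q) m with h | h
    · exact ih.2 q hq (by omega)
    · have hm : m = n * q := by omega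
      rcases Nat.lt_or_ge q 3 with h4 | h4
      · have hq2 : q = 2 := by omega
        subst hq2
        exact h2 G n hn (hRall _ (by omega))
      · obtain ⟨p, rfl⟩ : ∃ p, q = p + 1 := ⟨q - 1, by omega⟩
        have h5 : n * (p + 1) = n * p + n := by ring
        exact h3 G n p hn (by omega) (hRall _ (by omega)) (ih.2 p (by omega) (by omega))

theorem p_comb (h1 : RStepStm.{u}) (h2 : E2Stm.{u}) (h3 : EStepStm.{u}) : CombStm.{u} := by
  intro V G n W hn hW hok
  have hR : R G n W.card := (comb_aux h1 h2 h3 G n hn W.card).1 _ le_rfl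
  have hpos : 0 < W.card := hW.card_pos
  have hj : (W.card - 1) % n < n := Nat.mod_lt _ (by omega)
  have hdiv : n * ((W.card - 1) / n) + (W.card - 1) % n = W.card - 1 := Nat.div_add_mod _ _
  generalize (W.card - 1) / n = q at hdiv
  generalize (W.card - 1) % n = j at hdiv hj
  have hm : W.card = n * q + j + 1 := by omega
  have h := hR W hok rfl q j hj.le hm
  have h' : (1 : ℤ) + n * q ^ 2 + j * (2 * q + 1) ≤ (S G W : ℤ) := by exact_mod_cast h
  have hc : (W.card : ℤ) - 1 = n * q + j := by
    rw [hm]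
    push_cast
    ring
  rw [hc]
  have hj' : (j : ℤ) ≤ n := by exact_mod_cast hj.le
  have hj0 : (0 : ℤ) ≤ j := Int.natCast_nonneg j
  have hn0 : (0 : ℤ) ≤ n := Int.natCast_nonneg n
  have h6 : (n : ℤ) * (n * q ^ 2 + j * (2 * q + 1)) ≤ n * ((S G W : ℤ) - 1) :=
    mul_le_mul_of_nonneg_left (by linarith) hn0
  have h7 : (j : ℤ) * j ≤ n * j := mul_le_mul_of_nonneg_right hj' hj0
  nlinarith

end Pool.Agent.W4helper65.AF
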